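import Mathlib

/-!
# MP_b5e4d4_co: a counting formula for the labeled self-converse digraphs

`s_p(x)`, the sum of `x ^ (number of arcs)` over the labeled self-converse digraphs of order `p`, is

`∑_{k=1}^{m} (-1)^(k+1) e_k T_k(x)`,

where `e_k` is the `k`-th elementary symmetric function of the numbers `1/d`, `d` running through the `m` divisors
of `p!`, and `T_k(x)` is the sum over all `k`-tuples of permutations `σ_1, …, σ_k` of the points of the products
`∏ (1 + x^|O|)` over the orbits `O` of the maps `(u, v) ↦ (σ_i v, σ_i u)` on the ordered pairs.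
(`T_1(x) / p!` is the classical counting polynomial of the unlabeled self-converse digraphs.)
-/

set_option autoImplicit false

open Finset

namespace Pool.Agent.Results.MP_b5e4d4_co.CountingFormula

/-- the possible arcs: ordered pairs of distinct points of `Fin p` -/
abbrev Arc (p : ℕ) : Type := {e : Fin p × Fin p // e.1 ≠ e.2}

/-- the map `(u, v) ↦ (σ v, σ u)` -/
def twist {p : ℕ} (σ : Equiv.Perm (Fin p)) (e : Arc p) : Arc p :=
  ⟨(σ e.1.2, σ e.1.1), fun h => e.2 (σ.injective h).symm⟩

/-- `σ` is an isomorphism of the labeled digraph with arc set `A` onto its converse -/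
def IsConv {p : ℕ} (A : Finset (Arc p)) (σ : Equiv.Perm (Fin p)) : Prop := ∀ e, e ∈ A ↔ twist σ e ∈ A

/-- the labeled digraph with arc set `A` is self-converse -/
def SelfConverse {p : ℕ} (A : Finset (Arc p)) : Prop := ∃ σ : Equiv.Perm (Fin p), IsConv A σ

/-- one step of the relation on the possible arcs generated by the maps `twist (σ i)` -/
def Step {p k : ℕ} (σ : Fin k → Equiv.Perm (Fin p)) (e e' : Arc p) : Prop := ∃ i, e' = twist (σ i) e

/-- the orbits on the possible arcs: classes of the equivalence relation generated by `Step σ` -/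
abbrev Orb {p k : ℕ} (σ : Fin k → Equiv.Perm (Fin p)) : Type := Quot (Step σ)

noncomputable instance {p k : ℕ} (σ : Fin k → Equiv.Perm (Fin p)) : Fintype (Orb σ) := Fintype.ofFinite _

/-- the size of an orbit -/
noncomputable def size {p k : ℕ} (σ : Fin k → Equiv.Perm (Fin p)) (q : Orb σ) : ℕ :=
  Nat.card {e : Arc p // Quot.mk (Step σ) e = q}

open Classical in
/-- the generating function by number of arcs of the labeled self-converse digraphs of order `p` -/
noncomputable def gf (p : ℕ) (x : ℚ) : ℚ := ∑ A : Finset (Arc p) with SelfConverse A, x ^ A.card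

/-- `T_k(x)` -/
noncomputable def T (p k : ℕ) (x : ℚ) : ℚ :=
  ∑ σ : Fin k → Equiv.Perm (Fin p), ∏ q : Orb σ, (1 + x ^ size σ q)

/-- the `k`-th elementary symmetric function of the reciprocals of the divisors of `p!` -/
def esymm (p k : ℕ) : ℚ := ∑ B ∈ powersetCard k (p.factorial).divisors, ∏ d ∈ B, (1 / (d : ℚ))

/-! ### step 1: the number of isomorphisms onto the converse -/

/-- the automorphism group -/
def aut {p : ℕ} (A : Finset (Arc p)) : Subgroup (Equiv.Perm (Fin p)) where
  carrier := {g | ∀ e : Arc p, e ∈ A ↔ (⟨(g e.1.1, g e.1.2), fun h => e.2 (g.injective h)⟩ : Arc p) ∈ A}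
  mul_mem' := by
    intro a b ha hb e
    rw [hb e, ha]
    rfl
  one_mem' := fun e => Iff.rfl
  inv_mem' := by
    intro a ha e
    have h := ha ⟨(a⁻¹ e.1.1, a⁻¹ e.1.2), fun h => e.2 (a⁻¹.injective h)⟩
    have h2 : (⟨(a (a⁻¹ e.1.1), a (a⁻¹ e.1.2)), fun h => e.2 (a⁻¹.injective (a.injective h))⟩ : Arc p) = e :=
      Subtype.ext (Prod.ext (by simp) (by simp))
    rw [← h2]
    refine h.symm.trans ?_
    simp

theorem card_conv {p : ℕ} (A : Finset (Arc p)) :
    (Nat.card {σ // IsConv A σ} = 0 ∧ ¬ SelfConverse A) ∨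
      (Nat.card {σ // IsConv A σ} ∈ (p.factorial).divisors ∧ SelfConverse A) := by
  by_cases h : SelfConverse A
  · right
    refine ⟨?_, h⟩
    obtain ⟨s, hs⟩ := h
    have e : {σ // IsConv A σ} ≃ aut A :=
      { toFun := fun g => ⟨s⁻¹ * g.1, by
          intro e
          have h1 := g.2 e
          have h2 := hs ⟨(s⁻¹ (g.1 e.1.1), s⁻¹ (g.1 e.1.2)), fun h => e.2 (by simpa using h)⟩
          rw [h1]
          change _ ↔ (⟨(s⁻¹ (g.1 e.1.1), s⁻¹ (g.1 e.1.2)), _⟩ : Arc p) ∈ A
          rw [h2]
          simp [twist]⟩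
        invFun := fun h => ⟨s * h.1, by
          intro e
          rw [h.2 e, hs]
          rfl⟩
        left_inv := by intro g; apply Subtype.ext; simp
        right_inv := by intro g; apply Subtype.ext; simp }
    rw [Nat.card_congr e, Nat.mem_divisors]
    refine ⟨?_, p.factorial_ne_zero⟩
    have := Subgroup.card_subgroup_dvd_card (aut A)
    rwa [Nat.card_eq_fintype_card (α := Equiv.Perm (Fin p)), Fintype.card_perm, Fintype.card_fin] at this
  · left
    refine ⟨?_, h⟩
    rw [Nat.card_eq_zero]
    left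
    exact ⟨fun g => h ⟨g.1, g.2⟩⟩

open Classical in
theorem pow_conv {p : ℕ} (A : Finset (Arc p)) (k : ℕ) :
    ((Nat.card {σ // IsConv A σ} : ℚ)) ^ k =
      ∑ σ : Fin k → Equiv.Perm (Fin p), if (∀ i, IsConv A (σ i)) then (1:ℚ) else 0 := by
  have e : (Fin k → {σ // IsConv A σ}) ≃ {σ : Fin k → Equiv.Perm (Fin p) // ∀ i, IsConv A (σ i)} :=
    { toFun := fun f => ⟨fun i => (f i).1, fun i => (f i).2⟩
      invFun := fun σ i => ⟨σ.1 i, σ.2 i⟩
      left_inv := fun f => rfl
      right_inv := fun f => rfl }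
  have h2 : Nat.card (Fin k → {σ // IsConv A σ}) = (Nat.card {σ // IsConv A σ}) ^ k := by
    rw [Nat.card_fun]; simp
  have h3 : ((Nat.card {σ // IsConv A σ} : ℚ)) ^ k = (Nat.card (Fin k → {σ // IsConv A σ}) : ℚ) := by
    rw [h2]; push_cast; rfl
  rw [h3, Nat.card_congr e, Nat.card_eq_fintype_card, Fintype.card_subtype, Finset.card_filter]
  push_cast
  rfl

/-! ### step 2: digraphs invariant under the twisted action of a tuple -/

open Classical in
theorem sum_inv {p k : ℕ} (σ : Fin k → Equiv.Perm (Fin p)) (x : ℚ) :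
    ∑ A : Finset (Arc p) with (∀ i, IsConv A (σ i)), x ^ A.card = ∏ q : Orb σ, (1 + x ^ size σ q) := by
  have h1 : ∏ q : Orb σ, (1 + x ^ size σ q) = ∑ Q : Finset (Orb σ), ∏ q ∈ Q, x ^ size σ q := by
    have := Finset.prod_one_add (s := (Finset.univ : Finset (Orb σ))) (f := fun q => x ^ size σ q)
    rw [this, Finset.powerset_univ]
  rw [h1]
  symm
  refine Finset.sum_bij (fun Q _ => (Finset.univ : Finset (Arc p)).filter (fun e => Quot.mk (Step σ) e ∈ Q))
    ?_ ?_ ?_ ?_
  · intro Q _
    refine Finset.mem_filter.2 ⟨mem_univ _, ?_⟩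
    intro i e
    simp only [mem_filter, mem_univ, true_and]
    have : (Quot.mk (Step σ) (twist (σ i) e)) = Quot.mk (Step σ) e := (Quot.sound ⟨i, rfl⟩).symm
    rw [this]
  · intro Q _ Q' _ h
    ext q
    obtain ⟨e, rfl⟩ := Quot.exists_rep q
    have := Finset.ext_iff.1 h e
    simpa using this
  · intro A hA
    simp only [mem_filter, mem_univ, true_and] at hA
    have hl : ∀ a b, Step σ a b → (a ∈ A) = (b ∈ A) := by
      rintro a b ⟨i, rfl⟩
      exact propext (hA i a)
    refine ⟨(Finset.univ : Finset (Orb σ)).filter (fun q => Quot.lift (fun e => e ∈ A) hl q), mem_univ _, ?_⟩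
    ext e
    simp
  · intro Q _
    have hc : ((Finset.univ : Finset (Arc p)).filter (fun e => Quot.mk (Step σ) e ∈ Q)).card =
        ∑ q ∈ Q, size σ q := by
      rw [Finset.card_eq_sum_card_fiberwise (f := fun e => Quot.mk (Step σ) e) (t := Q)]
      · refine Finset.sum_congr rfl fun q hq => ?_
        unfold size
        rw [Nat.card_eq_fintype_card, Fintype.card_subtype]
        congr 1
        ext e
        simp only [mem_filter, mem_univ, true_and]
        constructor
        · exact fun h => h.2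
        · intro h
          exact ⟨h ▸ hq, h⟩
      · intro e he
        simpa using he
    rw [hc, Finset.prod_pow_eq_pow_sum]

/-! ### step 3: the indicator function -/

theorem indicator {p N : ℕ} (hN : N = 0 ∨ N ∈ (p.factorial).divisors) :
    (if N = 0 then (0:ℚ) else 1) =
      ∑ k ∈ Icc 1 (p.factorial).divisors.card, (-1) ^ (k + 1) * esymm p k * (N:ℚ) ^ k := by
  have hprod : ∏ d ∈ (p.factorial).divisors, (1 - (N:ℚ) / (d : ℚ)) =
      ∑ k ∈ range ((p.factorial).divisors.card + 1), (-1) ^ k * esymm p k * (N:ℚ) ^ k := by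
    rw [Finset.prod_sub, Finset.sum_powerset]
    refine Finset.sum_congr rfl fun k hk => ?_
    unfold esymm
    rw [Finset.mul_sum, Finset.sum_mul]
    refine Finset.sum_congr rfl fun B hB => ?_
    rw [Finset.mem_powersetCard] at hB
    rw [Finset.prod_const_one, hB.2, Finset.prod_div_distrib, Finset.prod_const, Finset.prod_div_distrib,
      Finset.prod_const_one, hB.2]
    ring
  have hs : ∑ k ∈ Icc 1 (p.factorial).divisors.card, (-1) ^ (k + 1) * esymm p k * (N:ℚ) ^ k =
      1 - ∏ d ∈ (p.factorial).divisors, (1 - (N:ℚ) / (d : ℚ)) := by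
    rw [hprod, Finset.sum_range_succ']
    have e0 : esymm p 0 = 1 := by simp [esymm]
    simp only [pow_zero, e0, mul_one]
    have : ∑ k ∈ Icc 1 (p.factorial).divisors.card, (-1) ^ (k + 1) * esymm p k * (N:ℚ) ^ k =
        ∑ k ∈ range (p.factorial).divisors.card, (-1) ^ (k + 1 + 1) * esymm p (k + 1) * (N:ℚ) ^ (k + 1) := by
      rw [Finset.range_eq_Ico, Finset.sum_Ico_add' (fun k => (-1 : ℚ) ^ (k + 1) * esymm p k * (N:ℚ) ^ k) 0
        (p.factorial).divisors.card 1]
      rfl
    rw [this]
    have : ∀ k ∈ range (p.factorial).divisors.card, (-1 : ℚ) ^ (k + 1 + 1) * esymm p (k + 1) * (N:ℚ) ^ (k + 1) =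
        - ((-1) ^ (k + 1) * esymm p (k + 1) * (N:ℚ) ^ (k + 1)) := by
      intro k _
      ring
    rw [Finset.sum_congr rfl this, Finset.sum_neg_distrib]
    ring
  rw [hs]
  rcases hN with h | h
  · simp [h]
  · have hpos : N ≠ 0 := (Nat.pos_of_mem_divisors h).ne'
    rw [if_neg hpos, Finset.prod_eq_zero h]
    · simp
    · rw [div_self (by exact_mod_cast hpos), sub_self]

/-- **A counting formula for the labeled self-converse digraphs** of order `p`, by number of arcs, and (`x = 1`)
for their number. -/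
theorem result (p : ℕ) :
    (∀ x : ℚ, gf p x = ∑ k ∈ Icc 1 (p.factorial).divisors.card, (-1) ^ (k + 1) * esymm p k * T p k x) ∧
    (Nat.card {A : Finset (Arc p) // SelfConverse A} : ℚ) =
      ∑ k ∈ Icc 1 (p.factorial).divisors.card, (-1) ^ (k + 1) * esymm p k *
        ∑ σ : Fin k → Equiv.Perm (Fin p), 2 ^ Nat.card (Orb σ) := by
  classical
  have main : ∀ x : ℚ, gf p x =
      ∑ k ∈ Icc 1 (p.factorial).divisors.card, (-1) ^ (k + 1) * esymm p k * T p k x := by
    intro x
    unfold gf
    rw [Finset.sum_filter]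
    have h0 : ∀ A : Finset (Arc p), (if SelfConverse A then x ^ A.card else 0) =
        ∑ k ∈ Icc 1 (p.factorial).divisors.card, (-1) ^ (k + 1) * esymm p k *
          ∑ σ : Fin k → Equiv.Perm (Fin p), if (∀ i, IsConv A (σ i)) then x ^ A.card else 0 := by
      intro A
      have h1 : ∀ k, (∑ σ : Fin k → Equiv.Perm (Fin p), if (∀ i, IsConv A (σ i)) then x ^ A.card else 0) =
          (Nat.card {σ // IsConv A σ} : ℚ) ^ k * x ^ A.card := by
        intro k
        rw [pow_conv, Finset.sum_mul]
        refine Finset.sum_congr rfl fun σ _ => ?_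
        split_ifs <;> simp
      simp_rw [h1]
      have h2 := indicator (p := p) (N := Nat.card {σ // IsConv A σ}) (by
        rcases card_conv A with h | h
        · exact Or.inl h.1
        · exact Or.inr h.1)
      have h3 : ∑ k ∈ Icc 1 (p.factorial).divisors.card, (-1) ^ (k + 1) * esymm p k *
          ((Nat.card {σ // IsConv A σ} : ℚ) ^ k * x ^ A.card) =
          (∑ k ∈ Icc 1 (p.factorial).divisors.card, (-1) ^ (k + 1) * esymm p k *
          (Nat.card {σ // IsConv A σ} : ℚ) ^ k) * x ^ A.card := by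
        rw [Finset.sum_mul]
        refine Finset.sum_congr rfl fun k _ => ?_
        ring
      rw [h3, ← h2]
      rcases card_conv A with h | h
      · rw [if_neg h.2, if_pos h.1, zero_mul]
      · rw [if_pos h.2, if_neg (Nat.pos_of_mem_divisors h.1).ne', one_mul]
    rw [Finset.sum_congr rfl fun A _ => h0 A, Finset.sum_comm]
    refine Finset.sum_congr rfl fun k _ => ?_
    rw [← Finset.mul_sum, Finset.sum_comm]
    congr 1
    unfold T
    refine Finset.sum_congr rfl fun σ _ => ?_
    rw [← sum_inv σ x, Finset.sum_filter]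
  refine ⟨main, ?_⟩
  have h1 : (Nat.card {A : Finset (Arc p) // SelfConverse A} : ℚ) = gf p 1 := by
    unfold gf
    rw [Nat.card_eq_fintype_card, Fintype.card_subtype]
    simp
  rw [h1, main 1]
  refine Finset.sum_congr rfl fun k _ => ?_
  congr 1
  unfold T
  refine Finset.sum_congr rfl fun σ _ => ?_
  have : ∀ q : Orb σ, (1 + (1:ℚ) ^ size σ q) = 2 := by intro q; norm_num
  rw [Finset.prod_congr rfl fun q _ => this q, Finset.prod_const, Finset.card_univ, Nat.card_eq_fintype_card]

end Pool.Agent.Results.MP_b5e4d4_co.CountingFormula
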